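import Mathlib

/-!
The completions of two ultrametric spaces are isometric if and only if their spaces of closed balls
of positive radius, with the Hausdorff distance, are isometric.

Two points `z`, `w` of an ultrametric space are twins if they have the same distance to every third
point. Both the image of the non-singleton balls under an isometry and the non-singleton balls are
transversals of the twin classes of those points that have a nearest other point; swapping the two
representatives in each class is an isometric involution. After composing with it, an isometry of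
ball spaces respects non-singletons, hence diameters, and nested balls shrinking to a point go to
balls shrinking to a point of the completion.
-/

set_option autoImplicit false
set_option linter.unusedSectionVars false

namespace Pool.Agent.Results.MP_856f66_gt.BallSpaces

open Metric Filter Topology

universe u v

/-- The set of closed balls of (strictly) positive radius of a metric space. -/
def Ball0 (X : Type u) [MetricSpace X] : Type u :=
  {B : Set X // ∃ c : X, ∃ r : ℝ, 0 < r ∧ B = closedBall c r}

/-- The Hausdorff distance of two balls. -/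
noncomputable def dH {X : Type u} [MetricSpace X] (A B : Ball0 X) : ℝ := hausdorffDist A.1 B.1

/-! ### Twins -/

section twins

variable {Z : Type u} (D : Z → Z → ℝ)

/-- Same distance to all third points. -/
def Twin (z w : Z) : Prop := ∀ u, u ≠ z → u ≠ w → D z u = D w u

/-- There is a nearest other point. -/
def HasNear (z : Z) : Prop := ∃ w, w ≠ z ∧ ∀ u, u ≠ z → D z w ≤ D z u

/-- symmetric ultrametric inequality -/
structure UM : Prop where
  /-- symmetric -/
  symm : ∀ z w, D z w = D w z
  /-- ultrametric -/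
  ultra : ∀ z w u, D z u ≤ max (D z w) (D w u)
  /-- diagonal -/
  diag : ∀ z, D z z = 0

/-- a transversal of the twin classes of points with nearest other points -/
structure Trans (N : Set Z) : Prop where
  /-- meets every class -/
  ex : ∀ z, HasNear D z → ∃ n ∈ N, Twin D n z
  /-- at most once -/
  uniq : ∀ n ∈ N, ∀ m ∈ N, Twin D n m → n = m
  /-- contained -/
  near : ∀ n ∈ N, HasNear D n

variable {D}

theorem Twin.refl (z : Z) : Twin D z z := fun _ _ _ => rfl

theorem Twin.symm {z w : Z} (h : Twin D z w) : Twin D w z := fun u h1 h2 => (h u h2 h1).symm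

theorem Twin.trans (hD : UM D) {z w v : Z} (h : Twin D z w) (h' : Twin D w v) : Twin D z v := by
  intro u hu1 hu2
  by_cases hw : u = w
  · subst hw
    by_cases hzv : z = v
    · rw [hzv]
    · have h1 : D z v = D u v := h v (Ne.symm hzv) (Ne.symm hu2)
      have h2 : D u z = D v z := h' z (Ne.symm hu1) hzv
      rw [hD.symm z u, h2, hD.symm v z, h1, hD.symm u v]
  · rw [h u hu1 hw, h' u hw hu2]

theorem Twin.near (hD : UM D) {z w : Z} (h : Twin D z w) (hne : z ≠ w) : HasNear D z := by
  refine ⟨w, hne.symm, fun u hu => ?_⟩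
  by_cases huw : u = w
  · rw [huw]
  · have h1 := h u hu huw
    have h2 := hD.ultra z u w
    rw [hD.symm u w, ← h1, max_self] at h2
    exact h2

theorem Twin.const (hD : UM D) {p q p' q' : Z} (h1 : Twin D p q) (h2 : Twin D p p')
    (h3 : Twin D p q') (h : p ≠ q) (h' : p' ≠ q') : D p q = D p' q' := by
  by_cases hq : q = p'
  · subst hq
    have := h3 q h.symm h'
    rw [this, hD.symm]
  · have e1 : D p q = D p' q := h2 q h.symm hq
    have t : Twin D q q' := h1.symm.trans hD h3
    have e2 : D q p' = D q' p' := t p' (Ne.symm hq) h'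
    rw [e1, hD.symm p' q, e2, hD.symm]

open Classical in
/-- the swap -/
theorem exists_swap (hD : UM D) {M N : Set Z} (hM : Trans D M) (hN : Trans D N) :
    ∃ σ : Z → Z, (∀ z, σ (σ z) = z) ∧ (∀ z w, D (σ z) (σ w) = D z w) ∧ (∀ z, σ z ∈ N ↔ z ∈ M) := by
  have hA : ∀ z, ∃ a, HasNear D z → a ∈ M ∧ Twin D a z := by
    intro z
    by_cases h : HasNear D z
    · obtain ⟨n, h1, h2⟩ := hM.ex z h
      exact ⟨n, fun _ => ⟨h1, h2⟩⟩
    · exact ⟨z, fun h' => absurd h' h⟩
  have hB : ∀ z, ∃ a, HasNear D z → a ∈ N ∧ Twin D a z := by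
    intro z
    by_cases h : HasNear D z
    · obtain ⟨n, h1, h2⟩ := hN.ex z h
      exact ⟨n, fun _ => ⟨h1, h2⟩⟩
    · exact ⟨z, fun h' => absurd h' h⟩
  choose a ha using hA
  choose b hb using hB
  have nearTw : ∀ z w, Twin D z w → HasNear D z → HasNear D w := by
    intro z w h hz
    by_cases e : z = w
    · rwa [← e]
    · exact h.symm.near hD (Ne.symm e)
  have aEq : ∀ z w, Twin D z w → HasNear D z → a z = a w := by
    intro z w h hz
    have hw := nearTw z w h hz
    exact hM.uniq _ (ha z hz).1 _ (ha w hw).1 (((ha z hz).2.trans hD h).trans hD (ha w hw).2.symm)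
  have bEq : ∀ z w, Twin D z w → HasNear D z → b z = b w := by
    intro z w h hz
    have hw := nearTw z w h hz
    exact hN.uniq _ (hb z hz).1 _ (hb w hw).1 (((hb z hz).2.trans hD h).trans hD (hb w hw).2.symm)
  let σ : Z → Z := fun z => if HasNear D z then Equiv.swap (a z) (b z) z else z
  have σn : ∀ z, HasNear D z → σ z = Equiv.swap (a z) (b z) z := fun z h => if_pos h
  have σnn : ∀ z, ¬ HasNear D z → σ z = z := fun z h => if_neg h
  have σtw : ∀ z, Twin D z (σ z) := by
    intro z
    by_cases h : HasNear D z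
    · rw [σn z h]
      by_cases h1 : z = a z
      · have : Equiv.swap (a z) (b z) z = b z := by
          have := Equiv.swap_apply_left (a z) (b z)
          rwa [← h1] at this ⊢
        rw [this]; exact (hb z h).2.symm
      · by_cases h2 : z = b z
        · have : Equiv.swap (a z) (b z) z = a z := by
            have := Equiv.swap_apply_right (a z) (b z)
            rwa [← h2] at this ⊢
          rw [this]; exact (ha z h).2.symm
        · rw [Equiv.swap_apply_of_ne_of_ne h1 h2]; exact Twin.refl z
    · rw [σnn z h]; exact Twin.refl z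
  have inv : ∀ z, σ (σ z) = z := by
    intro z
    by_cases h : HasNear D z
    · have h' := nearTw _ _ (σtw z) h
      rw [σn _ h', ← aEq _ _ (σtw z) h, ← bEq _ _ (σtw z) h, σn z h]
      exact Equiv.swap_apply_self _ _ _
    · rw [σnn z h, σnn z h]
  have σinj : ∀ z w, z ≠ w → σ z ≠ σ w := by
    intro z w h e
    apply h
    rw [← inv z, e, inv]
  refine ⟨σ, inv, ?_, ?_⟩
  · intro z w
    by_cases e : z = w
    · subst e
      rw [hD.diag, hD.diag]
    · by_cases t : Twin D z w
      · exact (Twin.const hD t (σtw z) (t.trans hD (σtw w)) e (σinj z w e)).symm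
      · have e1 : D z (σ w) = D (σ z) (σ w) := by
          apply σtw z
          · intro h
            exact t (Twin.symm (h ▸ σtw w))
          · exact (σinj z w e).symm
        have e2 : D w z = D (σ w) z := by
          apply σtw w
          · exact e
          · intro h
            exact t (Twin.symm (h ▸ σtw w))
        rw [← e1, hD.symm z w, e2, hD.symm]
  · have key : ∀ m ∈ M, σ m = b m := by
      intro m hm
      have h := hM.near m hm
      have e : a m = m := hM.uniq _ (ha m h).1 _ hm (ha m h).2
      rw [σn m h, e]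
      exact Equiv.swap_apply_left _ _
    have key' : ∀ n ∈ N, σ n = a n := by
      intro m hm
      have h := hN.near m hm
      have e : b m = m := hN.uniq _ (hb m h).1 _ hm (hb m h).2
      rw [σn m h, e]
      exact Equiv.swap_apply_right _ _
    intro z
    constructor
    · intro h
      have := key' _ h
      rw [inv] at this
      rw [this]
      exact (ha _ (hN.near _ h)).1
    · intro h
      rw [key z h]
      exact (hb _ (hM.near _ h)).1

end twins

/-! ### Balls in ultrametric spaces -/

section balls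

variable {X : Type u} [MetricSpace X]

theorem Ball0.bdd (A : Ball0 X) : Bornology.IsBounded A.1 := by
  obtain ⟨c, r, hr, h⟩ := A.2
  rw [h]; exact isBounded_closedBall

theorem Ball0.nonempty (A : Ball0 X) : A.1.Nonempty := by
  obtain ⟨c, r, hr, h⟩ := A.2
  rw [h]; exact ⟨c, mem_closedBall_self hr.le⟩

/-- the ball with given centre and radius -/
def mk (c : X) (r : ℝ) (hr : 0 < r) : Ball0 X := ⟨closedBall c r, c, r, hr, rfl⟩

variable [IsUltrametricDist X]

theorem Ball0.eq_of_mem (A : Ball0 X) {x : X} (hx : x ∈ A.1) : ∃ r, 0 < r ∧ A.1 = closedBall x r := by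
  obtain ⟨c, r, hr, h⟩ := A.2
  refine ⟨r, hr, ?_⟩
  rw [h]
  exact IsUltrametricDist.closedBall_eq_of_mem (h ▸ hx)

/-- A point at distance at most `diam A` of a point of the ball `A` lies in `A`. -/
theorem Ball0.mem_of_dist_le_diam (A : Ball0 X) {x y : X} (hx : x ∈ A.1)
    (h : dist y x ≤ diam A.1) : y ∈ A.1 := by
  obtain ⟨r, hr, hA⟩ := A.eq_of_mem hx
  rw [hA, mem_closedBall]
  refine h.trans ?_
  rw [hA]
  apply diam_le_of_forall_dist_le hr.le
  intro a ha b hb
  rw [mem_closedBall] at ha hb
  exact (dist_triangle_max a x b).trans (max_le ha (by rwa [dist_comm]))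

theorem diam_closedBall_le (x : X) {r : ℝ} (hr : 0 ≤ r) : diam (closedBall x r) ≤ r := by
  apply diam_le_of_forall_dist_le hr
  intro a ha b hb
  rw [mem_closedBall] at ha hb
  exact (dist_triangle_max a x b).trans (max_le ha (by rwa [dist_comm]))

theorem Ball0.ext' {A B : Ball0 X} (h : A.1 = B.1) : A = B := Subtype.ext h

theorem dH_of_ne {A B : Ball0 X} (h : A ≠ B) : dH A B = diam (A.1 ∪ B.1) := by
  have hbd : Bornology.IsBounded (A.1 ∪ B.1) := A.bdd.union B.bdd
  apply le_antisymm
  · apply hausdorffDist_le_of_mem_dist diam_nonneg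
    · intro x hx
      obtain ⟨y, hy⟩ := B.nonempty
      exact ⟨y, hy, dist_le_diam_of_mem hbd (Or.inl hx) (Or.inr hy)⟩
    · intro x hx
      obtain ⟨y, hy⟩ := A.nonempty
      exact ⟨y, hy, dist_le_diam_of_mem hbd (Or.inr hx) (Or.inl hy)⟩
  · -- wlog some point of `B` outside `A`
    have key : ∀ A B : Ball0 X, (∃ b ∈ B.1, b ∉ A.1) → diam (A.1 ∪ B.1) ≤ hausdorffDist A.1 B.1 := by
      intro A B ⟨b0, hb0, hb0A⟩
      have hfin : hausdorffEDist B.1 A.1 ≠ ⊤ :=
        hausdorffEDist_ne_top_of_nonempty_of_bounded B.nonempty A.nonempty B.bdd A.bdd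
      have hfin' : hausdorffEDist A.1 B.1 ≠ ⊤ :=
        hausdorffEDist_ne_top_of_nonempty_of_bounded A.nonempty B.nonempty A.bdd B.bdd
      -- distance to A of points of B
      have hB : ∀ b ∈ B.1, infDist b A.1 ≤ hausdorffDist B.1 A.1 := fun b hb =>
        infDist_le_hausdorffDist_of_mem hb hfin
      -- if `b ∉ A` then `dist b a = infDist`
      have hinf : ∀ b, b ∉ A.1 → ∀ a ∈ A.1, dist b a ≤ infDist b A.1 := by
        intro b hb a ha
        rw [le_infDist A.nonempty]
        intro a' ha'
        have h1 : diam A.1 < dist b a' := by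
          by_contra hc
          exact hb (A.mem_of_dist_le_diam ha' (not_lt.1 hc))
        have h2 := dist_triangle_max b a' a
        have h3 := dist_le_diam_of_mem A.bdd ha' ha
        exact h2.trans (max_le le_rfl (h3.trans h1.le))
      have hcomm : hausdorffDist B.1 A.1 = hausdorffDist A.1 B.1 := hausdorffDist_comm
      set H := hausdorffDist A.1 B.1 with hH
      have h0 : ∀ a ∈ A.1, dist b0 a ≤ H := fun a ha =>
        (hinf b0 hb0A a ha).trans (hcomm ▸ hB b0 hb0)
      have hdA : diam A.1 ≤ H := by
        obtain ⟨a, ha⟩ := A.nonempty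
        by_contra hc
        exact hb0A (A.mem_of_dist_le_diam ha ((h0 a ha).trans (not_le.1 hc).le))
      obtain ⟨a0, ha0⟩ := A.nonempty
      have hall : ∀ x ∈ A.1 ∪ B.1, dist x a0 ≤ H := by
        rintro x (hx | hx)
        · exact (dist_le_diam_of_mem A.bdd hx ha0).trans hdA
        · by_cases hxA : x ∈ A.1
          · exact (dist_le_diam_of_mem A.bdd hxA ha0).trans hdA
          · exact (hinf x hxA a0 ha0).trans (hcomm ▸ hB x hx)
      apply diam_le_of_forall_dist_le hausdorffDist_nonneg
      intro x hx y hy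
      exact (dist_triangle_max x a0 y).trans (max_le (hall x hx) (by rw [dist_comm]; exact hall y hy))
    by_cases hBA : B.1 ⊆ A.1
    · have hAB : ∃ a ∈ A.1, a ∉ B.1 := by
        by_contra hc
        push Not at hc
        exact h (Ball0.ext' (Set.Subset.antisymm hc hBA))
      have := key B A hAB
      rw [Set.union_comm] at this
      unfold dH
      rwa [hausdorffDist_comm] at this
    · obtain ⟨b, hb, hbA⟩ := Set.not_subset.1 hBA
      exact key A B ⟨b, hb, hbA⟩

theorem dH_self (A : Ball0 X) : dH A A = 0 := hausdorffDist_self_zero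

theorem dH_comm (A B : Ball0 X) : dH A B = dH B A := hausdorffDist_comm

theorem dist_le_dH {A B : Ball0 X} (h : A ≠ B) {x y : X} (hx : x ∈ A.1 ∪ B.1)
    (hy : y ∈ A.1 ∪ B.1) : dist x y ≤ dH A B := by
  rw [dH_of_ne h]
  exact dist_le_diam_of_mem (A.bdd.union B.bdd) hx hy

theorem diam_le_dH {A B : Ball0 X} (h : A ≠ B) : diam A.1 ≤ dH A B := by
  rw [dH_of_ne h]
  exact diam_mono Set.subset_union_left (A.bdd.union B.bdd)

theorem um : UM (dH (X := X)) where
  symm := dH_comm
  diag := dH_self
  ultra := by
    intro A B C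
    by_cases hAC : A = C
    · rw [hAC, dH_self]
      exact le_max_of_le_left hausdorffDist_nonneg
    by_cases hAB : A = B
    · rw [hAB]; exact le_max_right _ _
    by_cases hBC : B = C
    · rw [hBC]; exact le_max_left _ _
    rw [dH_of_ne hAC]
    obtain ⟨b, hb⟩ := B.nonempty
    have hall : ∀ x ∈ A.1 ∪ C.1, dist x b ≤ max (dH A B) (dH B C) := by
      rintro x (hx | hx)
      · exact (dist_le_dH hAB (Or.inl hx) (Or.inr hb)).trans (le_max_left _ _)
      · exact (dist_le_dH hBC (Or.inr hx) (Or.inl hb)).trans (le_max_right _ _)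
    apply diam_le_of_forall_dist_le (le_max_of_le_left hausdorffDist_nonneg)
    intro x hx y hy
    exact (dist_triangle_max x b y).trans (max_le (hall x hx) (by rw [dist_comm]; exact hall y hy))

/-- the non-singleton balls -/
def Big (X : Type u) [MetricSpace X] : Set (Ball0 X) := {A | ∃ x ∈ A.1, ∃ y ∈ A.1, x ≠ y}

theorem exists_smaller {A : Ball0 X} (hA : A ∈ Big X) :
    ∃ u : Ball0 X, u ≠ A ∧ u.1 ⊆ A.1 ∧ ∃ y ∈ A.1, y ∉ u.1 := by
  obtain ⟨x, hx, y, hy, hxy⟩ := hA
  have hs : 0 < dist x y := dist_pos.2 hxy
  obtain ⟨r, hr, hAr⟩ := A.eq_of_mem hx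
  have hyr : dist y x ≤ r := by
    rw [hAr] at hy; exact hy
  have hyn : y ∉ (mk x (dist x y / 2) (half_pos hs)).1 := by
    intro h
    have : dist y x ≤ dist x y / 2 := h
    rw [dist_comm] at this
    linarith
  refine ⟨mk x (dist x y / 2) (half_pos hs), ?_, ?_, y, hy, hyn⟩
  · intro h
    exact hyn (h ▸ hy)
  · rw [hAr]
    apply closedBall_subset_closedBall
    rw [dist_comm] at hyr
    linarith

theorem near_of_big {A : Ball0 X} (hA : A ∈ Big X) :
    ∃ u : Ball0 X, u ≠ A ∧ u.1 ⊆ A.1 ∧ dH A u = diam A.1 := by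
  obtain ⟨u, h1, h2, -⟩ := exists_smaller hA
  refine ⟨u, h1, h2, ?_⟩
  rw [dH_of_ne h1.symm, Set.union_eq_self_of_subset_right h2]

theorem trans_big : Trans (dH (X := X)) (Big X) where
  near := by
    intro A hA
    obtain ⟨u, h1, h2, h3⟩ := near_of_big hA
    exact ⟨u, h1, fun w hw => by rw [h3]; exact diam_le_dH hw.symm⟩
  uniq := by
    have key : ∀ n ∈ Big X, ∀ m ∈ Big X, (∃ b ∈ m.1, b ∉ n.1) → ¬ Twin dH n m := by
      intro n hn m hm ⟨b, hb, hbn⟩ ht
      obtain ⟨u, h1, h2, h3⟩ := near_of_big hn
      have hum : u ≠ m := by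
        intro e
        exact hbn (h2 (e ▸ hb))
      have e1 := ht u h1 hum
      obtain ⟨x, hx⟩ := u.nonempty
      have : dist b x ≤ dH m u := dist_le_dH hum.symm (Or.inl hb) (Or.inr hx)
      rw [← e1, h3] at this
      exact hbn (n.mem_of_dist_le_diam (h2 hx) this)
    intro n hn m hm ht
    by_contra hne
    by_cases hBA : m.1 ⊆ n.1
    · have hAB : ∃ a ∈ n.1, a ∉ m.1 := by
        by_contra hc
        push Not at hc
        exact hne (Ball0.ext' (Set.Subset.antisymm hc hBA))
      exact key m hm n hn hAB ht.symm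
    · obtain ⟨b, hb, hbA⟩ := Set.not_subset.1 hBA
      exact key n hn m hm ⟨b, hb, hbA⟩ ht
  ex := by
    intro z hz
    by_cases hbig : z ∈ Big X
    · exact ⟨z, hbig, Twin.refl z⟩
    obtain ⟨w, hw, hmin⟩ := hz
    obtain ⟨x, hx⟩ := z.nonempty
    have hz1 : ∀ y ∈ z.1, y = x := by
      intro y hy
      by_contra hc
      exact hbig ⟨y, hy, x, hx, hc⟩
    -- some point of `w` different from `x`
    have hwx : ∃ y ∈ w.1, y ≠ x := by
      by_contra hc
      push Not at hc
      apply hw
      apply Ball0.ext'
      ext t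
      constructor
      · intro ht
        rw [hc t ht]; exact hx
      · intro ht
        rw [hz1 t ht]
        obtain ⟨s, hs⟩ := w.nonempty
        rw [← hc s hs]; exact hs
    obtain ⟨y, hy, hyx⟩ := hwx
    have hyd : dist y x ≤ dH z w := dist_le_dH hw.symm (Or.inr hy) (Or.inl hx)
    have hpos : 0 < dH z w := lt_of_lt_of_le (dist_pos.2 hyx) hyd
    let n : Ball0 X := mk x (dH z w) hpos
    have hyn : y ∈ n.1 := hyd
    have hxn : x ∈ n.1 := mem_closedBall_self hpos.le
    have hnb : n ∈ Big X := ⟨y, hyn, x, hxn, hyx⟩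
    have hnz : n ≠ z := fun e => hbig (e ▸ hnb)
    have hzn : z.1 ⊆ n.1 := by
      intro t ht
      rw [hz1 t ht]; exact hxn
    have hdn : diam n.1 ≤ dH z w := diam_closedBall_le x hpos.le
    have hdn' : dH z n = diam n.1 := by
      rw [dH_of_ne hnz.symm, Set.union_eq_self_of_subset_left hzn]
    have hdn2 : dH z w ≤ diam n.1 := by
      rw [← hdn']; exact hmin n hnz
    refine ⟨n, hnb, ?_⟩
    intro t htn htz
    have hU := um (X := X)
    have h1 : dH z w ≤ dH z t := hmin t htz
    have h2 : diam n.1 ≤ dH n t := diam_le_dH htn.symm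
    apply le_antisymm
    · refine (hU.ultra n z t).trans (max_le ?_ le_rfl)
      rw [dH_comm n z, hdn']
      exact hdn.trans h1
    · refine (hU.ultra z n t).trans (max_le ?_ le_rfl)
      rw [hdn']
      exact h2

end balls

/-! ### From ball spaces to completions -/

section back

variable {X : Type u} {Y : Type v} [MetricSpace X] [MetricSpace Y]
  [IsUltrametricDist X] [IsUltrametricDist Y]

theorem exists_good (Φ : Ball0 X ≃ Ball0 Y) (hΦ : ∀ A B, dH (Φ A) (Φ B) = dH A B) :
    ∃ Ψ : Ball0 X ≃ Ball0 Y, (∀ A B, dH (Ψ A) (Ψ B) = dH A B) ∧ ∀ A, Ψ A ∈ Big Y ↔ A ∈ Big X := by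
  have hM : Trans (dH (X := Y)) (Φ '' Big X) := by
    have hnear : ∀ z, HasNear dH (Φ z) → HasNear dH z := by
      rintro z ⟨w, hw, hmin⟩
      refine ⟨Φ.symm w, ?_, ?_⟩
      · intro e; apply hw; rw [← e, Equiv.apply_symm_apply]
      · intro t ht
        have := hmin (Φ t) (fun e => ht (Φ.injective e))
        rw [← hΦ, Equiv.apply_symm_apply, ← hΦ z t]
        exact this
    have hnear' : ∀ z, HasNear dH z → HasNear dH (Φ z) := by
      rintro z ⟨w, hw, hmin⟩
      refine ⟨Φ w, fun e => hw (Φ.injective e), ?_⟩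
      intro t ht
      have := hmin (Φ.symm t) (fun e => ht (by rw [← e, Equiv.apply_symm_apply]))
      rw [← hΦ, ← hΦ z (Φ.symm t), Equiv.apply_symm_apply] at this
      exact this
    have htw : ∀ z w, Twin dH (Φ z) (Φ w) → Twin dH z w := by
      intro z w h t h1 h2
      have := h (Φ t) (fun e => h1 (Φ.injective e)) (fun e => h2 (Φ.injective e))
      rwa [hΦ, hΦ] at this
    have htw' : ∀ z w, Twin dH z w → Twin dH (Φ z) (Φ w) := by
      intro z w h t h1 h2
      have := h (Φ.symm t) (fun e => h1 (by rw [← e, Equiv.apply_symm_apply]))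
        (fun e => h2 (by rw [← e, Equiv.apply_symm_apply]))
      rw [← hΦ, ← hΦ w, Equiv.apply_symm_apply] at this
      exact this
    refine ⟨?_, ?_, ?_⟩
    · intro z hz
      obtain ⟨z', rfl⟩ := Φ.surjective z
      obtain ⟨n, hn, ht⟩ := trans_big.ex z' (hnear z' hz)
      exact ⟨Φ n, ⟨n, hn, rfl⟩, htw' _ _ ht⟩
    · rintro _ ⟨n, hn, rfl⟩ _ ⟨m, hm, rfl⟩ ht
      rw [trans_big.uniq n hn m hm (htw _ _ ht)]
    · rintro _ ⟨n, hn, rfl⟩
      exact hnear' n (trans_big.near n hn)
  obtain ⟨σ, h1, h2, h3⟩ := exists_swap (um (X := Y)) hM trans_big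
  let τ : Ball0 Y ≃ Ball0 Y := ⟨σ, σ, h1, h1⟩
  refine ⟨Φ.trans τ, ?_, ?_⟩
  · intro A B
    exact (h2 _ _).trans (hΦ _ _)
  · intro A
    have : (Φ.trans τ) A = σ (Φ A) := rfl
    rw [this, h3]
    constructor
    · rintro ⟨B, hB, e⟩
      rwa [← Φ.injective e]
    · intro h; exact ⟨A, h, rfl⟩

theorem diam_eq_zero_of_not_big {A : Ball0 X} (h : A ∉ Big X) : diam A.1 = 0 := by
  apply diam_subsingleton
  intro x hx y hy
  by_contra hc
  exact h ⟨x, hx, y, hy, hc⟩

theorem diam_le_of_good {Ψ : Ball0 X ≃ Ball0 Y} (hΨ : ∀ A B, dH (Ψ A) (Ψ B) = dH A B)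
    (hb : ∀ A, Ψ A ∈ Big Y ↔ A ∈ Big X) (A : Ball0 X) : diam (Ψ A).1 ≤ diam A.1 := by
  by_cases h : A ∈ Big X
  · obtain ⟨u, h1, h2, h3⟩ := near_of_big h
    rw [← h3, ← hΨ]
    exact diam_le_dH (fun e => h1 (Ψ.injective e).symm)
  · have : Ψ A ∉ Big Y := fun h' => h ((hb A).1 h')
    rw [diam_eq_zero_of_not_big h, diam_eq_zero_of_not_big this]

theorem abs_dist_sub_le {A B : Ball0 X} {a b : X} (ha : a ∈ A.1) (hb : b ∈ B.1) {ε : ℝ}
    (hA : diam A.1 ≤ ε) (hB : diam B.1 ≤ ε) : |dist a b - dH A B| ≤ 2 * ε := by
  have hε : 0 ≤ ε := diam_nonneg.trans hA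
  by_cases h : A = B
  · subst h
    rw [dH_self, sub_zero, abs_of_nonneg dist_nonneg]
    have := dist_le_diam_of_mem A.bdd ha hb
    linarith
  · have h1 : dist a b ≤ dH A B := dist_le_dH h (Or.inl ha) (Or.inr hb)
    have h2 : dH A B ≤ max (dist a b) ε := by
      rw [dH_of_ne h]
      have hall : ∀ x ∈ A.1 ∪ B.1, dist x a ≤ max (dist a b) ε := by
        rintro x (hx | hx)
        · exact ((dist_le_diam_of_mem A.bdd hx ha).trans hA).trans (le_max_right _ _)
        · refine (dist_triangle_max x b a).trans (max_le ?_ ?_)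
          · exact ((dist_le_diam_of_mem B.bdd hx hb).trans hB).trans (le_max_right _ _)
          · rw [dist_comm]; exact le_max_left _ _
      apply diam_le_of_forall_dist_le (le_max_of_le_left dist_nonneg)
      intro x hx y hy
      exact (dist_triangle_max x a y).trans
        (max_le (hall x hx) (by rw [dist_comm]; exact hall y hy))
    have h3 : max (dist a b) ε ≤ dist a b + ε := by
      apply max_le
      · linarith
      · linarith [dist_nonneg (x := a) (y := b)]
    rw [abs_le]
    constructor <;> linarith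

theorem completion_of_balls {Φ : Ball0 X ≃ Ball0 Y} (hΦ : ∀ A B, dH (Φ A) (Φ B) = dH A B) :
    Nonempty (UniformSpace.Completion X ≃ᵢ UniformSpace.Completion Y) := by
  obtain ⟨Ψ, hΨ, hb⟩ := exists_good Φ hΦ
  have hΨ' : ∀ A B, dH (Ψ.symm A) (Ψ.symm B) = dH A B := by
    intro A B
    rw [← hΨ, Equiv.apply_symm_apply, Equiv.apply_symm_apply]
  have hb' : ∀ A, Ψ.symm A ∈ Big X ↔ A ∈ Big Y := by
    intro A
    rw [← hb, Equiv.apply_symm_apply]
  have hd := diam_le_of_good hΨ hb
  have hd' := diam_le_of_good hΨ' hb'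
  let e : ℕ → ℝ := fun n => 1 / ((n : ℝ) + 1)
  have he : ∀ n, 0 < e n := fun n => by positivity
  have hmono : ∀ n m, n ≤ m → e m ≤ e n := by
    intro n m h
    exact one_div_le_one_div_of_le (by positivity) (by
      have : (n : ℝ) ≤ m := by exact_mod_cast h
      linarith)
  have hlim : Tendsto e atTop (𝓝 0) := tendsto_one_div_add_atTop_nhds_zero_nat
  let B : ℕ → X → Ball0 X := fun n x => mk x (e n) (he n)
  have hBd : ∀ n x, diam (B n x).1 ≤ e n := fun n x => diam_closedBall_le x (he n).le
  have hCd : ∀ n x, diam (Ψ (B n x)).1 ≤ e n := fun n x => (hd _).trans (hBd n x)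
  have hBB : ∀ n m x, n ≤ m → dH (B n x) (B m x) ≤ e n := by
    intro n m x h
    by_cases hne : B n x = B m x
    · rw [hne, dH_self]; exact (he n).le
    · rw [dH_of_ne hne]
      have : (B m x).1 ⊆ (B n x).1 := closedBall_subset_closedBall (hmono n m h)
      rw [Set.union_eq_self_of_subset_right this]
      exact hBd n x
  have hy : ∀ n x, ∃ y, y ∈ (Ψ (B n x)).1 := fun n x => (Ψ (B n x)).nonempty
  choose y hy using hy
  have hyy : ∀ n m x, n ≤ m → dist (y m x) (y n x) ≤ 3 * e n := by
    intro n m x h
    have h1 := abs_dist_sub_le (hy m x) (hy n x) ((hCd m x).trans (hmono n m h)) (hCd n x)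
    have h2 := hBB n m x h
    rw [hΨ, dH_comm] at h1
    have := (abs_le.1 h1).2
    linarith
  have hcau : ∀ x, ∃ l : UniformSpace.Completion Y,
      Tendsto (fun n => (y n x : UniformSpace.Completion Y)) atTop (𝓝 l) := by
    intro x
    apply cauchySeq_tendsto_of_complete
    apply cauchySeq_of_le_tendsto_0' (fun n => 3 * e n)
    · intro n m h
      rw [UniformSpace.Completion.dist_eq, dist_comm]
      exact hyy n m x h
    · simpa using hlim.const_mul 3
  choose f hf using hcau
  have hfn : ∀ n x, dist (f x) (y n x : UniformSpace.Completion Y) ≤ 3 * e n := by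
    intro n x
    have h1 : Tendsto (fun m => dist (y m x : UniformSpace.Completion Y)
        (y n x : UniformSpace.Completion Y)) atTop
        (𝓝 (dist (f x) (y n x : UniformSpace.Completion Y))) :=
      (hf x).dist tendsto_const_nhds
    apply le_of_tendsto h1
    filter_upwards [eventually_ge_atTop n] with m hm
    rw [UniformSpace.Completion.dist_eq]
    exact hyy n m x hm
  have hiso : Isometry f := by
    apply Isometry.of_dist_eq
    intro x x'
    have h1 : Tendsto (fun n => dist (y n x : UniformSpace.Completion Y)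
        (y n x' : UniformSpace.Completion Y)) atTop (𝓝 (dist (f x) (f x'))) :=
      (hf x).dist (hf x')
    refine tendsto_nhds_unique h1 ?_
    rw [tendsto_iff_dist_tendsto_zero]
    refine squeeze_zero (fun _ => dist_nonneg) (fun n => ?_) (g := fun n => 4 * e n) (by
      simpa using hlim.const_mul 4)
    rw [Real.dist_eq, UniformSpace.Completion.dist_eq]
    have h2 := abs_dist_sub_le (hy n x) (hy n x') (hCd n x) (hCd n x')
    have h3 := abs_dist_sub_le (A := B n x) (B := B n x') (a := x) (b := x')
      (mem_closedBall_self (he n).le) (mem_closedBall_self (he n).le) (hBd n x) (hBd n x')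
    rw [hΨ] at h2
    have e1 : dist (y n x) (y n x') - dist x x' = (dist (y n x) (y n x') - dH (B n x) (B n x'))
      - (dist x x' - dH (B n x) (B n x')) := by ring
    rw [e1]
    refine (abs_sub _ _).trans ?_
    linarith
  have hdense : ∀ w : Y, ∀ n, ∃ x, dist (f x) (w : UniformSpace.Completion Y) ≤ 6 * e n := by
    intro w n
    let A : Ball0 X := Ψ.symm (mk w (e n) (he n))
    obtain ⟨x, hx⟩ := A.nonempty
    have hA : diam A.1 ≤ e n := (hd' _).trans (diam_closedBall_le w (he n).le)
    have hAB : A.1 ⊆ (B n x).1 := by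
      intro t ht
      exact (dist_le_diam_of_mem A.bdd ht hx).trans hA
    have hD : dH A (B n x) ≤ e n := by
      by_cases hne : A = B n x
      · rw [hne, dH_self]; exact (he n).le
      · rw [dH_of_ne hne, Set.union_eq_self_of_subset_left hAB]; exact hBd n x
    have hD' : dH (mk w (e n) (he n)) (Ψ (B n x)) ≤ e n := by
      have : mk w (e n) (he n) = Ψ A := (Equiv.apply_symm_apply _ _).symm
      rw [this, hΨ]; exact hD
    refine ⟨x, ?_⟩
    have h1 := abs_dist_sub_le (A := mk w (e n) (he n)) (a := w)
      (mem_closedBall_self (he n).le) (hy n x) (diam_closedBall_le w (he n).le) (hCd n x)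
    have h2 := (abs_le.1 h1).2
    have h3 := hfn n x
    have h4 := dist_triangle (f x) (y n x : UniformSpace.Completion Y)
      (w : UniformSpace.Completion Y)
    rw [UniformSpace.Completion.dist_eq (y n x) w, dist_comm (y n x) w] at h4
    linarith
  have hcl : ∀ w : Y, (w : UniformSpace.Completion Y) ∈ closure (Set.range f) := by
    intro w
    rw [Metric.mem_closure_iff]
    intro ε hε
    have h6 : Tendsto (fun n => 6 * e n) atTop (𝓝 0) := by simpa using hlim.const_mul 6
    obtain ⟨n, hn⟩ := (h6.eventually (gt_mem_nhds hε)).exists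
    obtain ⟨x, hx⟩ := hdense w n
    exact ⟨f x, ⟨x, rfl⟩, by rw [dist_comm]; exact lt_of_le_of_lt hx hn⟩
  let F : UniformSpace.Completion X → UniformSpace.Completion Y :=
    UniformSpace.Completion.extension f
  have hF : Isometry F := hiso.completion_extension
  have hFc : IsClosed (Set.range F) := hF.isClosedEmbedding.isClosed_range
  have hsub : Set.range f ⊆ Set.range F := by
    rintro _ ⟨x, rfl⟩
    exact ⟨x, UniformSpace.Completion.extension_coe hiso.uniformContinuous x⟩
  have hsurj : Function.Surjective F := by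
    have h1 : Set.range (fun w : Y => (w : UniformSpace.Completion Y)) ⊆ Set.range F := by
      rintro _ ⟨w, rfl⟩
      exact closure_minimal hsub hFc (hcl w)
    have h2 := closure_minimal h1 hFc
    intro z
    exact h2 (UniformSpace.Completion.denseRange_coe z)
  exact ⟨⟨Equiv.ofBijective F ⟨hF.injective, hsurj⟩, hF⟩⟩

end back

/-! ### From completions to ball spaces -/

section forth

variable {X : Type u} [MetricSpace X] [IsUltrametricDist X]

instance : IsUltrametricDist (UniformSpace.Completion X) := ⟨by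
  intro x y z
  induction x, y, z using UniformSpace.Completion.induction_on₃ with
  | hp =>
    exact isClosed_le (by fun_prop) (by fun_prop)
  | ih x y z =>
    rw [UniformSpace.Completion.dist_eq, UniformSpace.Completion.dist_eq,
      UniformSpace.Completion.dist_eq]
    exact dist_triangle_max x y z⟩

theorem closure_image_ball (c : X) {r : ℝ} (hr : 0 < r) :
    closure ((fun x : X => (x : UniformSpace.Completion X)) '' closedBall c r) =
      closedBall (c : UniformSpace.Completion X) r := by
  apply Set.Subset.antisymm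
  · apply closure_minimal _ isClosed_closedBall
    rintro _ ⟨x, hx, rfl⟩
    rw [mem_closedBall, UniformSpace.Completion.dist_eq]
    exact hx
  · have ho : IsOpen (closedBall (c : UniformSpace.Completion X) r) :=
      IsUltrametricDist.isOpen_closedBall _ hr.ne'
    intro z hz
    rw [_root_.mem_closure_iff]
    intro o hoo hzo
    obtain ⟨x, hx⟩ := UniformSpace.Completion.denseRange_coe.exists_mem_open (hoo.inter ho)
      ⟨z, hzo, hz⟩
    refine ⟨x, hx.1, x, ?_, rfl⟩
    have := hx.2
    rw [mem_closedBall, UniformSpace.Completion.dist_eq] at this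
    exact this

/-- closed balls of a space and its completion -/
theorem exists_ballCompletion : ∃ Φ : Ball0 X ≃ Ball0 (UniformSpace.Completion X),
    ∀ A B, dH (Φ A) (Φ B) = dH A B := by
  let g : Ball0 X → Ball0 (UniformSpace.Completion X) := fun A =>
    ⟨closure ((fun x : X => (x : UniformSpace.Completion X)) '' A.1), by
      obtain ⟨c, r, hr, h⟩ := A.2
      exact ⟨c, r, hr, by rw [h]; exact closure_image_ball c hr⟩⟩
  have hg : ∀ A B, dH (g A) (g B) = dH A B := by
    intro A B
    have h1 : dH (g A) (g B) =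
      hausdorffDist (closure ((fun x : X => (x : UniformSpace.Completion X)) '' A.1))
        (closure ((fun x : X => (x : UniformSpace.Completion X)) '' B.1)) := rfl
    rw [h1, hausdorffDist_closure, hausdorffDist_image UniformSpace.Completion.coe_isometry]
    rfl
  have hinj : Function.Injective g := by
    intro A B h
    obtain ⟨c, r, hr, hA⟩ := A.2
    obtain ⟨c', r', hr', hB⟩ := B.2
    have h1 : (g A).1 = closedBall (c : UniformSpace.Completion X) r := by
      change closure ((fun x : X => (x : UniformSpace.Completion X)) '' A.1) = _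
      rw [hA]; exact closure_image_ball c hr
    have h2 : (g B).1 = closedBall (c' : UniformSpace.Completion X) r' := by
      change closure ((fun x : X => (x : UniformSpace.Completion X)) '' B.1) = _
      rw [hB]; exact closure_image_ball c' hr'
    have h3 : closedBall (c : UniformSpace.Completion X) r =
        closedBall (c' : UniformSpace.Completion X) r' := by rw [← h1, ← h2, h]
    apply Ball0.ext'
    ext x
    have h4 : (x : UniformSpace.Completion X) ∈ closedBall (c : UniformSpace.Completion X) r ↔
        (x : UniformSpace.Completion X) ∈ closedBall (c' : UniformSpace.Completion X) r' := by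
      rw [h3]
    rw [mem_closedBall, mem_closedBall, UniformSpace.Completion.dist_eq,
      UniformSpace.Completion.dist_eq] at h4
    rw [hA, hB]
    exact h4
  have hsurj : Function.Surjective g := by
    intro B
    obtain ⟨c, r, hr, hB⟩ := B.2
    obtain ⟨x, hx⟩ := UniformSpace.Completion.denseRange_coe.exists_mem_open
      (IsUltrametricDist.isOpen_closedBall c hr.ne') ⟨c, mem_closedBall_self hr.le⟩
    refine ⟨mk x r hr, ?_⟩
    apply Ball0.ext'
    rw [hB, IsUltrametricDist.closedBall_eq_of_mem hx]
    exact closure_image_ball x hr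
  exact ⟨Equiv.ofBijective g ⟨hinj, hsurj⟩, hg⟩

theorem balls_of_isometry {X : Type u} {Y : Type v} [MetricSpace X] [MetricSpace Y]
    (e : X ≃ᵢ Y) : ∃ Φ : Ball0 X ≃ Ball0 Y, ∀ A B, dH (Φ A) (Φ B) = dH A B := by
  refine ⟨⟨fun A => ⟨e '' A.1, ?_⟩, fun A => ⟨e.symm '' A.1, ?_⟩, ?_, ?_⟩, ?_⟩
  · obtain ⟨c, r, hr, h⟩ := A.2
    exact ⟨e c, r, hr, by rw [h, IsometryEquiv.image_closedBall]⟩
  · obtain ⟨c, r, hr, h⟩ := A.2
    exact ⟨e.symm c, r, hr, by rw [h, IsometryEquiv.image_closedBall]⟩
  · intro A
    apply Subtype.ext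
    change e.symm '' (e '' A.1) = A.1
    rw [Set.image_image]
    simp
  · intro A
    apply Subtype.ext
    change e '' (e.symm '' A.1) = A.1
    rw [Set.image_image]
    simp
  · intro A B
    exact hausdorffDist_image e.isometry

end forth

/-- **Q1 holds.** The completions of two ultrametric spaces are isometric if and only if their
spaces of closed balls of positive radius, with the Hausdorff distance, are isometric. -/
theorem result (X : Type u) (Y : Type v) [MetricSpace X] [MetricSpace Y]
    [IsUltrametricDist X] [IsUltrametricDist Y] :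
    Nonempty (UniformSpace.Completion X ≃ᵢ UniformSpace.Completion Y) ↔
      ∃ Φ : Ball0 X ≃ Ball0 Y, ∀ A B,
        hausdorffDist (Φ A).1 (Φ B).1 = hausdorffDist A.1 B.1 := by
  constructor
  · rintro ⟨e⟩
    obtain ⟨ΦX, hX⟩ := exists_ballCompletion (X := X)
    obtain ⟨ΦY, hY⟩ := exists_ballCompletion (X := Y)
    obtain ⟨Φ, hΦ⟩ := balls_of_isometry e
    refine ⟨(ΦX.trans Φ).trans ΦY.symm, ?_⟩
    intro A B
    have h1 := hY (ΦY.symm (Φ (ΦX A))) (ΦY.symm (Φ (ΦX B)))
    rw [Equiv.apply_symm_apply, Equiv.apply_symm_apply, hΦ, hX] at h1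
    exact h1.symm
  · rintro ⟨Φ, hΦ⟩
    exact completion_of_balls hΦ

end Pool.Agent.Results.MP_856f66_gt.BallSpaces
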